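import Pool.Agent.T6.H62.PP.CntG
import Pool.Agent.W2helper83.BT.Defs

/-!
# The dynamics of `(A x ^ d + b) / v ^ l`, and the uniform bound for `x ^ d + c`

`DynG`, `CntG`, `TailG`, `MainG` of `T6/H62/PP` with `l` in place of `3`.
-/

set_option autoImplicit false

namespace Pool.Agent.W2helper9.BT

open Finset Pool.Agent.T6.H62.UB Pool.Agent.T6.H62.PP Pool.Agent.T6.H62.PP.G
open Pool.Agent.W2helper83.BT

section

variable {l d v : ℕ} [NeZero l] {b : ℤ} {O : Finset ℤ} {φ : ℤ → ℤ}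

theorem eqn' (h : Sys d 1 b (v ^ l) O φ) {u : ℤ} (hu : u ∈ O) :
    (v : ℤ) ^ l * φ u = u ^ d + b := by
  have := h.eqn u hu
  push_cast at this
  linarith

theorem eqn_sub (h : Sys d 1 b (v ^ l) O φ) {u w : ℤ} (hu : u ∈ O) (hw : w ∈ O) :
    (v : ℤ) ^ l * (φ u - φ w) = u ^ d - w ^ d := by
  linear_combination eqn' h hu - eqn' h hw

theorem not_dvd_of_mem (h : Sys d 1 b (v ^ l) O φ) (hd : 2 ≤ d) {p : ℕ} (hp : p.Prime)
    (hpv : p ∣ v) {u : ℤ} (hu : u ∈ O) : ¬ (p : ℤ) ∣ u :=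
  h.not_dvd (by omega) hp (dvd_pow hpv (NeZero.ne l)) hu

theorem ne_zero_of_mem (h : Sys d 1 b (v ^ l) O φ) (hd : 2 ≤ d) (hv : 2 ≤ v) {u : ℤ}
    (hu : u ∈ O) : u ≠ 0 := by
  rintro rfl
  obtain ⟨p, hp, hpv⟩ := Nat.exists_prime_and_dvd (show v ≠ 1 by omega)
  exact not_dvd_of_mem h hd hp hpv hu (dvd_zero _)

theorem phi_eq_of_pow_eq (h : Sys d 1 b (v ^ l) O φ) (hv : 0 < v) {u w : ℤ} (hu : u ∈ O)
    (hw : w ∈ O) (huw : u ^ d = w ^ d) : φ u = φ w := by
  have h1 := eqn_sub h hu hw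
  rw [huw, sub_self] at h1
  have h2 : (v : ℤ) ^ l ≠ 0 := pow_ne_zero _ (by exact_mod_cast hv.ne')
  rcases mul_eq_zero.1 h1 with h3 | h3
  · exact absurd h3 h2
  · omega

/-- one step of the valuations at `p ∣ v` -/
theorem val_step (h : Sys d 1 b (v ^ l) O φ) {p : ℕ} (hp : p.Prime)
    (hv : 0 < v) {u w : ℤ} (hu : u ∈ O) (hw : w ∈ O) (hne : φ u ≠ φ w) :
    padicValInt p (u ^ d - w ^ d) = l * v.factorization p + padicValInt p (φ u - φ w) := by
  have := Fact.mk hp
  have hvz : (v : ℤ) ≠ 0 := by exact_mod_cast hv.ne'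
  rw [← eqn_sub h hu hw, padicValInt.mul (pow_ne_zero _ hvz) (sub_ne_zero.2 hne)]
  congr 1
  have h1 : ((v : ℤ) ^ l) = ((v ^ l : ℕ) : ℤ) := by push_cast; rfl
  rw [h1, padicValInt.of_nat, padicValNat.pow, Nat.factorization_def _ hp]

theorem pow_ne_of_NM (h : Sys d 1 b (v ^ l) O φ) (hv : 0 < v) {u w : ℤ} (hu : u ∈ O)
    (hw : w ∈ O) (hn : NM φ u w) : u ^ d ≠ w ^ d := fun h1 =>
  hn.step.ne (phi_eq_of_pow_eq h hv hu hw h1)

/-- **The differences are cubes at the primes of `v`.** -/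
theorem val_sub_dvd (h : Sys d 1 b (v ^ l) O φ) (hd : 2 ≤ d) (hv : 0 < v)
    {p : ℕ} (hp : p.Prime) (hpv : p ∣ v) (hpd : ¬ p ∣ d) :
    ∀ (N : ℕ) {u w : ℤ}, u ∈ O → w ∈ O → NM φ u w → padicValInt p (u - w) = N → l ∣ N := by
  have := Fact.mk hp
  intro N
  induction N using Nat.strong_induction_on with
  | _ N ih =>
    intro u w hu hw hn hN
    by_cases hdv : (p : ℤ) ∣ u - w
    · have h1 := val_mul hp (pow_ne_of_NM h hv hu hw hn)
      rw [padicValInt.eq_zero_of_not_dvd (not_dvd_psi hp hpd hdv (not_dvd_of_mem h hd hp hpv hw)),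
        add_zero, val_step h hp hv hu hw hn.step.ne] at h1
      have h2 : 0 < v.factorization p := hp.factorization_pos_of_dvd hv.ne' hpv
      have h4 : 0 < l * v.factorization p := Nat.mul_pos (Nat.pos_of_neZero l) h2
      rw [hN] at h1
      have h5 := ih (padicValInt p (φ u - φ w)) (by omega) (h.maps u hu) (h.maps w hw) hn.step rfl
      rw [← h1]
      exact dvd_add (dvd_mul_right l _) h5
    · rw [padicValInt.eq_zero_of_not_dvd hdv] at hN
      rw [← hN]; exact dvd_zero _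

theorem val_pow_sub_dvd (h : Sys d 1 b (v ^ l) O φ) (hd : 2 ≤ d)
    (hv : 0 < v) {p : ℕ} (hp : p.Prime) (hpv : p ∣ v) (hpd : ¬ p ∣ d) {u w : ℤ} (hu : u ∈ O)
    (hw : w ∈ O) (hn : NM φ u w) : l ∣ padicValInt p (u ^ d - w ^ d) := by
  rw [val_step h hp hv hu hw hn.step.ne]
  exact dvd_add (dvd_mul_right l _)
    (val_sub_dvd h hd hv hp hpv hpd _ (h.maps u hu) (h.maps w hw) hn.step rfl)

/-- **Dynamical units**: `Psi d u w` has no prime divisors outside `v`. -/
theorem not_dvd_psi_of_per (h : Sys d 1 b (v ^ l) O φ) (hv : 0 < v)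
    {u w : ℤ} (hu : u ∈ O) (hw : w ∈ O) (pu : Per φ u) (pw : Per φ w) (hne : u ≠ w)
    {q : ℕ} (hq : q.Prime) (hqv : ¬ q ∣ v) : ¬ (q : ℤ) ∣ Psi d u w := by
  have := Fact.mk hq
  have hn := per_NM pu pw hne
  -- the valuations along the orbit are nondecreasing
  have hstep : ∀ {u w : ℤ}, u ∈ O → w ∈ O → NM φ u w →
      padicValInt q (φ u - φ w) = padicValInt q (u - w) + padicValInt q (Psi d u w) := by
    intro u w hu hw hn
    have h1 := val_step h hq hv hu hw hn.step.ne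
    rw [Nat.factorization_eq_zero_of_not_dvd hqv, Nat.mul_zero, Nat.zero_add,
      val_mul hq (pow_ne_of_NM h hv hu hw hn)] at h1
    exact h1.symm
  have hit : ∀ k : ℕ, φ^[k] u ∈ O ∧ φ^[k] w ∈ O ∧ NM φ (φ^[k] u) (φ^[k] w) ∧
      padicValInt q (φ u - φ w) ≤ padicValInt q (φ^[k + 1] u - φ^[k + 1] w) := by
    intro k
    induction k with
    | zero => exact ⟨hu, hw, hn, le_rfl⟩
    | succ k ih =>
      obtain ⟨i1, i2, i3, i4⟩ := ih
      have j1 := h.maps _ i1
      have j2 := h.maps _ i2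
      have j3 := i3.step
      rw [← Function.iterate_succ_apply' φ] at j1 j2 j3
      rw [← Function.iterate_succ_apply' φ] at j3
      refine ⟨j1, j2, j3, i4.trans ?_⟩
      have j4 := hstep j1 j2 j3
      rw [← Function.iterate_succ_apply' φ, ← Function.iterate_succ_apply' φ] at j4
      simp only [Nat.succ_eq_add_one] at j4 ⊢
      omega
  obtain ⟨n, hn0, e1, e2⟩ := common_period pu pw
  have h1 := (hit (n - 1)).2.2.2
  rw [Nat.sub_add_cancel hn0, e1, e2, hstep hu hw hn] at h1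
  intro hdvd
  have h2 : 1 ≤ padicValInt q (Psi d u w) := by
    by_contra hcon
    have h3 : padicValInt q (Psi d u w) = 0 := by omega
    rw [padicValInt.eq_zero_iff] at h3
    rcases h3 with h3 | h3 | h3
    · exact hq.one_lt.ne' h3
    · exact psi_ne_zero (pow_ne_of_NM h hv hu hw hn) h3
    · exact h3 hdvd
  omega

/-- Periodic pairs satisfy `FP'`. -/
theorem FP'_of_per (h : Sys d 1 b (v ^ l) O φ) (hd : 2 ≤ d) (hv : 2 ≤ v)
    {u w : ℤ} (hu : u ∈ O) (hw : w ∈ O) (pu : Per φ u) (pw : Per φ w) (hne : u ≠ w) :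
    FP' l d u w := by
  have hv0 : 0 < v := by omega
  have hn := per_NM pu pw hne
  have hpow := pow_ne_of_NM h hv0 hu hw hn
  refine ⟨ne_zero_of_mem h hd hv hw, hpow, ?_⟩
  intro q hq hqd
  by_cases hqv : q ∣ v
  · refine ⟨fun h1 => not_dvd_of_mem h hd hq hqv hu h1.1, ?_⟩
    have h1 := val_pow_sub_dvd h hd hv0 hq hqv hqd hu hw hn
    have h2 := val_sub_dvd h hd hv0 hq hqv hqd _ hu hw hn rfl
    rw [val_mul hq hpow] at h1
    exact (Nat.dvd_add_right h2).1 h1
  · have h1 := not_dvd_psi_of_per h hv0 hu hw pu pw hne hq hqv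
    refine ⟨?_, by rw [padicValInt.eq_zero_of_not_dvd h1]; exact dvd_zero _⟩
    rintro ⟨h2, h4⟩
    apply h1
    unfold Psi
    apply dvd_sum
    intro i hi
    rw [mem_range] at hi
    rcases Nat.eq_zero_or_pos i with h5 | h5
    · subst h5
      exact Dvd.dvd.mul_left (dvd_pow h4 (by omega)) _
    · exact Dvd.dvd.mul_right (dvd_pow h2 (by omega)) _

/-! ### preperiodic points -/

/-- The differences of a point whose orbit passes through `-w` and of a periodic point. -/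
theorem tail_units (h : Sys d 1 b (v ^ l) O φ) (hde : Even d) (hv : 0 < v)
    {w : ℤ} (hw : w ∈ O) (pw : Per φ w) (k : ℕ) :
    ∀ {u y : ℤ}, u ∈ O → y ∈ O → Per φ y → φ^[k] u = -w → φ^[k] y ≠ w →
      u ≠ y ∧ (∀ q : ℕ, q.Prime → ¬ q ∣ v → ¬ (q : ℤ) ∣ u - y) ∧
      (1 ≤ k → u ^ d ≠ y ^ d ∧ ∀ q : ℕ, q.Prime → ¬ q ∣ v → ¬ (q : ℤ) ∣ u ^ d - y ^ d) := by
  induction k with
  | zero =>
    intro u y hu hy py h1 h2
    simp only [Function.iterate_zero, id] at h1 h2
    have h3 : ∀ q : ℕ, q.Prime → ¬ q ∣ v → ¬ (q : ℤ) ∣ u - y := by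
      intro q hq hqv hdv
      apply not_dvd_psi_of_per h hv hw hy pw py (Ne.symm h2) hq hqv
      refine dvd_trans ?_ (add_dvd_psi hde (Ne.symm h2))
      have e1 : u - y = -(w + y) := by rw [h1]; ring
      rw [e1, dvd_neg] at hdv
      exact hdv
    refine ⟨?_, h3, fun h4 => by omega⟩
    intro huy
    obtain ⟨q, hq1, hq⟩ := Nat.exists_infinite_primes (v + 1)
    apply h3 q hq
    · intro hqv
      have := Nat.le_of_dvd hv hqv
      omega
    · rw [huy, sub_self]; exact dvd_zero _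
  | succ k ih =>
    intro u y hu hy py h1 h2
    rw [Function.iterate_succ_apply] at h1 h2
    have py' : Per φ (φ y) := by simpa using py.iter 1
    obtain ⟨i1, i2, -⟩ := ih (h.maps u hu) (h.maps y hy) py' h1 h2
    have h3 := eqn_sub h hu hy
    have hne : u ^ d ≠ y ^ d := fun h4 => i1 (phi_eq_of_pow_eq h hv hu hy h4)
    have h4 : ∀ q : ℕ, q.Prime → ¬ q ∣ v → ¬ (q : ℤ) ∣ u ^ d - y ^ d := by
      intro q hq hqv hdv
      rw [← h3] at hdv
      have hqi : Prime (q : ℤ) := Nat.prime_iff_prime_int.1 hq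
      rcases hqi.dvd_or_dvd hdv with h5 | h5
      · exact hqv (Int.natCast_dvd_natCast.1 (hqi.dvd_of_dvd_pow h5))
      · exact i2 q hq hqv h5
    refine ⟨by rintro rfl; exact hne rfl, ?_, fun _ => ⟨hne, h4⟩⟩
    intro q hq hqv hdv
    apply h4 q hq hqv
    rw [← psi_mul]
    exact Dvd.dvd.mul_right hdv _

theorem tail_NM (h : Sys d 1 b (v ^ l) O φ) (hde : Even d) (hv : 0 < v)
    {w : ℤ} (hw : w ∈ O) (pw : Per φ w) {k : ℕ}
    {u y : ℤ} (hu : u ∈ O) (hy : y ∈ O) (py : Per φ y) (h1 : φ^[k] u = -w) (h2 : φ^[k] y ≠ w) :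
    NM φ u y := by
  have hbase : -w ≠ φ^[k] y := by
    have := (tail_units h hde hv hw pw 0 (u := -w) (y := φ^[k] y)
      (by rw [← h1]; exact h.iter_mem hu k) (h.iter_mem hy k) (py.iter k) rfl
      (by simpa using h2)).1
    exact this
  intro n hn
  rcases Nat.lt_or_ge k n with hkn | hkn
  · -- after the point `-w`
    obtain ⟨j, rfl⟩ : ∃ j, n = j + 1 + k := ⟨n - k - 1, by omega⟩
    have e1 : φ^[j + 1 + k] u = φ^[j + 1] w := by
      rw [Function.iterate_add_apply, h1, Function.iterate_succ_apply, Function.iterate_succ_apply]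
      congr 1
      apply phi_eq_of_pow_eq h hv _ hw (hde.neg_pow w)
      rw [← h1]; exact h.iter_mem hu k
    have e2 : φ^[j + 1 + k] y = φ^[j + 1] (φ^[k] y) := by
      rw [Function.iterate_add_apply]
    rw [e1, e2] at hn
    exact h2 (per_inj (py.iter k) pw hn.symm)
  · apply hbase
    rw [← h1]
    have e1 : φ^[k - n] (φ^[n] u) = φ^[k - n] (φ^[n] y) := by rw [hn]
    rw [← Function.iterate_add_apply, ← Function.iterate_add_apply, Nat.sub_add_cancel hkn] at e1
    exact e1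

/-- A point of type at least two and a periodic point satisfy `FP`. -/
theorem FP_of_tail (h : Sys d 1 b (v ^ l) O φ) (hd : 2 ≤ d) (hde : Even d)
    (hv : 2 ≤ v) {w : ℤ} (hw : w ∈ O) (pw : Per φ w) {k : ℕ} (hk : 1 ≤ k)
    {u y : ℤ} (hu : u ∈ O) (hy : y ∈ O) (py : Per φ y) (h1 : φ^[k] u = -w) (h2 : φ^[k] y ≠ w) :
    FP l d u y := by
  have hv0 : 0 < v := by omega
  obtain ⟨i1, i2, i3⟩ := tail_units h hde hv0 hw pw k hu hy py h1 h2
  obtain ⟨i4, i5⟩ := i3 hk
  have hn := tail_NM h hde hv0 hw pw hu hy py h1 h2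
  refine ⟨ne_zero_of_mem h hd hv hy, i4, ?_⟩
  intro q hq hqd
  by_cases hqv : q ∣ v
  · exact ⟨fun h4 => not_dvd_of_mem h hd hq hqv hu h4.1,
      val_pow_sub_dvd h hd hv0 hq hqv hqd hu hy hn⟩
  · refine ⟨fun h4 => i2 q hq hqv (dvd_sub h4.1 h4.2), ?_⟩
    rw [padicValInt.eq_zero_of_not_dvd (i5 q hq hqv)]
    exact dvd_zero _

end



section

variable {l d v : ℕ} [NeZero l] {b : ℤ} {O : Finset ℤ} {φ : ℤ → ℤ}

/-- The number of points is bounded in terms of the number of periodic points if there are two. -/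
theorem card_le_two (h : Sys d 1 b (v ^ l) O φ) (hde : Even d) (hd : 4 ≤ d)
    (hv : 2 ≤ v) (hev : ∀ u ∈ O, ∃ m n : ℕ, m < n ∧ φ^[m] u = φ^[n] u) {F : Finset ℚ}
    (hF : ∀ X U : ℤ, FP l d X U → (X : ℚ) / (U : ℚ) ∈ F) (hP2 : 2 ≤ (perSet φ O).card) :
    O.card ≤ (2 + F.card) * (perSet φ O).card := by
  classical
  set P := perSet φ O with hP
  -- the points of type at least two
  set R := O.filter (fun u => ∃ (k : ℕ) (w : ℤ), 1 ≤ k ∧ w ∈ O ∧ Per φ w ∧ φ^[k] u = -w) with hR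
  have hcover : O ⊆ P ∪ P.image (fun u => -u) ∪ R := by
    intro u hu
    rw [mem_union, mem_union]
    by_cases hper : Per φ u
    · exact Or.inl (Or.inl (mem_perSet.2 ⟨hu, hper⟩))
    · obtain ⟨k, w, hw, pw, hkw⟩ := exists_tail h one_ne_zero hde (by omega) hu (hev u hu) hper
      rcases Nat.eq_zero_or_pos k with hk | hk
      · subst hk
        left; right
        rw [mem_image]
        exact ⟨w, mem_perSet.2 ⟨hw, pw⟩, hkw.symm⟩
      · right
        rw [hR, mem_filter]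
        exact ⟨hu, k, w, hk, hw, pw, hkw⟩
  have hcard1 : O.card ≤ P.card + P.card + R.card := by
    refine (card_le_card hcover).trans ((card_union_le _ _).trans ?_)
    refine Nat.add_le_add_right ((card_union_le _ _).trans ?_) _
    exact Nat.add_le_add_left card_image_le _
  have hRcard : R.card ≤ F.card * P.card := by
    rw [← card_product]
    have hRsub : R.image (fun u : ℤ => (u : ℚ)) ⊆
        (F ×ˢ P).image (fun q : ℚ × ℤ => q.1 * (q.2 : ℚ)) := by
      intro x hx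
      rw [mem_image] at hx
      obtain ⟨u, hu, rfl⟩ := hx
      rw [hR, mem_filter] at hu
      obtain ⟨hu, k, w, hk, hw, pw, hkw⟩ := hu
      obtain ⟨y1, hy1, y2, hy2, hne⟩ := one_lt_card.1 (show 1 < P.card by omega)
      have hex : ∃ y ∈ P, φ^[k] y ≠ w := by
        by_contra hcon
        push Not at hcon
        apply hne
        exact per_inj (mem_perSet.1 hy1).2 (mem_perSet.1 hy2).2
          ((hcon y1 hy1).trans (hcon y2 hy2).symm)
      obtain ⟨y, hy, hyw⟩ := hex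
      obtain ⟨hyO, py⟩ := mem_perSet.1 hy
      have hF3 := FP_of_tail h (by omega) hde hv hw pw hk hu hyO py hkw hyw
      rw [mem_image]
      refine ⟨((u : ℚ) / (y : ℚ), y), mem_product.2 ⟨hF u y hF3, hy⟩, ?_⟩
      simp only
      rw [div_mul_cancel₀]
      exact_mod_cast hF3.1
    have h1 := (card_le_card hRsub).trans card_image_le
    rwa [card_image_of_injective _ Int.cast_injective] at h1
  nlinarith

end

/-- PER: a uniform bound for periodic points -/
def PERStm (l d : ℕ) : Prop := ∃ B : ℕ, ∀ (v : ℕ) (b : ℤ) (O : Finset ℤ) (φ : ℤ → ℤ),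
  Sys d 1 b (v ^ l) O φ → 2 ≤ v → (perSet φ O).card ≤ B

/-- Periodic points -/
theorem per_of_fin {l d : ℕ} [NeZero l] (hd : 4 ≤ d) (hF : FIN' l d) :
    PERStm l d := by
  classical
  set F := (Set.Finite.toFinset hF) with hFdef
  refine ⟨F.card + 1, ?_⟩
  intro v b O φ h hv
  rcases (perSet φ O).eq_empty_or_nonempty with he | ⟨y, hy⟩
  · rw [he, card_empty]; omega
  have hy' : y ∈ O ∧ Per φ y := mem_perSet.1 hy
  have hy0 : (y : ℚ) ≠ 0 := by exact_mod_cast ne_zero_of_mem h (by omega) hv hy'.1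
  rw [← card_erase_add_one hy]
  apply Nat.add_le_add_right
  apply card_le_card_of_injOn (fun u : ℤ => (u : ℚ) / (y : ℚ))
  · intro u hu
    rw [mem_coe, mem_erase, mem_perSet] at hu
    rw [mem_coe, hFdef, Set.Finite.mem_toFinset]
    exact ⟨u, y, FP'_of_per h (by omega) hv hu.2.1 hy'.1 hu.2.2 hy'.2 hu.1, rfl⟩
  · intro u _ w _ huw
    simp only at huw
    rw [div_left_inj' hy0] at huw
    exact_mod_cast huw



/-- A fixed point `z` such that `-z` has a preimage. -/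
theorem tailG {l d : ℕ} (hF : FIN l d) (hde : Even d) (hd : 4 ≤ d) : ∃ B : ℕ,
    ∀ (A b z x : ℤ) (v : ℕ), A ≠ 0 → 0 < v → IsCoprime A ((v ^ l : ℕ) : ℤ) →
      IsCoprime b ((v ^ l : ℕ) : ℤ) → z ≠ 0 → ((v ^ l : ℕ) : ℤ) * z = A * z ^ d + b →
      ((v ^ l : ℕ) : ℤ) * (-z) = A * x ^ d + b → v ^ l + b.natAbs ≤ B := by
  classical
  set F := (Set.Finite.toFinset hF) with hFdef
  set N := ∑ r ∈ F, (r.num.natAbs + r.den) with hN
  refine ⟨2 * N ^ d + (2 * N ^ d * (2 * N * N) + 2 * N * (2 * N * N) ^ d), ?_⟩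
  intro A b z x v hA hv hAv hbv hz h1 h2
  set V : ℤ := ((v ^ l : ℕ) : ℤ) with hV
  have hV0 : V ≠ 0 := by rw [hV]; positivity
  have hzb : z ∣ b := by
    refine ⟨V - A * z ^ (d - 1), ?_⟩
    obtain ⟨e, rfl⟩ : ∃ e, d = e + 1 := ⟨d - 1, by omega⟩
    simp only [Nat.add_sub_cancel]
    rw [pow_succ] at h1
    linear_combination -h1
  have hzV : IsCoprime z V := hbv.of_isCoprime_of_dvd_left hzb
  have hgpos : 0 < Int.gcd x z := Int.gcd_pos_of_ne_zero_right x hz
  obtain ⟨t, U, htU, hx, hzU⟩ := Int.exists_gcd_one hgpos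
  set g : ℤ := (Int.gcd x z : ℤ) with hg
  have hg0 : g ≠ 0 := by rw [hg]; exact_mod_cast hgpos.ne'
  have htU' : IsCoprime t U := Int.isCoprime_iff_gcd_eq_one.2 htU
  have hU0 : U ≠ 0 := by
    rintro rfl
    rw [zero_mul] at hzU
    exact hz hzU
  have hgz : g ∣ z := ⟨U, by rw [hzU]; ring⟩
  -- divide by `g`
  have e1 : A * g ^ (d - 1) * (t ^ d - U ^ d) = -2 * V * U := by
    apply mul_left_cancel₀ hg0
    obtain ⟨e, rfl⟩ : ∃ e, d = e + 1 := ⟨d - 1, by omega⟩
    simp only [Nat.add_sub_cancel]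
    have h3 : A * (x ^ (e + 1) - z ^ (e + 1)) = -2 * V * z := by linear_combination h1 - h2
    rw [hx, hzU, mul_pow, mul_pow] at h3
    linear_combination h3
  have hUcop : IsCoprime U (t ^ d - U ^ d) := by
    have h3 : IsCoprime U (t ^ d) := (htU'.symm).pow_right
    obtain ⟨e, rfl⟩ : ∃ e, d = e + 1 := ⟨d - 1, by omega⟩
    have h4 : t ^ (e + 1) - U ^ (e + 1) = t ^ (e + 1) + U * (-U ^ e) := by ring
    rw [h4]
    exact h3.add_mul_left_right _
  have hUdvd : U ∣ A * g ^ (d - 1) := by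
    apply hUcop.dvd_of_dvd_mul_right
    rw [e1]
    exact dvd_mul_left _ _
  obtain ⟨k, hk⟩ := hUdvd
  have e2 : k * (t ^ d - U ^ d) = -2 * V := by
    apply mul_left_cancel₀ hU0
    rw [hk] at e1
    linear_combination e1
  have hkV : IsCoprime k V := by
    have h3 : IsCoprime (A * g ^ (d - 1)) V :=
      hAv.mul_left ((hzV.of_isCoprime_of_dvd_left hgz).pow_left)
    exact h3.of_isCoprime_of_dvd_left ⟨U, by rw [hk]; ring⟩
  have hk2 : k ∣ 2 := by
    apply hkV.dvd_of_dvd_mul_right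
    exact ⟨-(t ^ d - U ^ d), by linear_combination e2⟩
  have hkabs : k.natAbs ≤ 2 := Nat.le_of_dvd (by norm_num) (Int.natAbs_dvd_natAbs.2 hk2)
  have hk0 : k ≠ 0 := by
    rintro rfl
    exact absurd (zero_dvd_iff.1 hk2) (by norm_num)
  have hne : t ^ d - U ^ d ≠ 0 := by
    intro h0
    rw [h0, mul_zero] at e2
    exact hV0 (by linarith)
  -- the pair
  have hFP : FP l d t U := by
    refine ⟨hU0, sub_ne_zero.1 hne, ?_⟩
    intro q hq hqd
    have := Fact.mk hq
    have hqi : Prime (q : ℤ) := Nat.prime_iff_prime_int.1 hq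
    have hq2 : ¬ (q : ℤ) ∣ 2 := by
      intro h3
      have h4 : q ∣ 2 := by exact_mod_cast h3
      exact hqd (h4.trans hde.two_dvd)
    refine ⟨fun h3 => ?_, ?_⟩
    · have h4 := htU'.isUnit_of_dvd' h3.1 h3.2
      exact hqi.not_isUnit h4
    · have h3 : padicValInt q (k * (t ^ d - U ^ d)) = padicValInt q (-2 * V) := by rw [e2]
      rw [padicValInt.mul hk0 hne, padicValInt.eq_zero_of_not_dvd (fun h4 => hq2 (h4.trans hk2)),
        zero_add, padicValInt.mul (by norm_num) hV0,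
        padicValInt.eq_zero_of_not_dvd (show ¬ (q : ℤ) ∣ -2 by rwa [dvd_neg]), zero_add, hV,
        padicValInt.of_nat,
        padicValNat.pow] at h3
      rw [h3]
      exact dvd_mul_right _ _
  have hr : (t : ℚ) / (U : ℚ) ∈ F := by
    rw [hFdef, Set.Finite.mem_toFinset]
    exact ⟨t, U, hFP, rfl⟩
  set r : ℚ := (t : ℚ) / (U : ℚ) with hrdef
  have hrN : r.num.natAbs + r.den ≤ N :=
    single_le_sum (f := fun r : ℚ => r.num.natAbs + r.den) (fun _ _ => Nat.zero_le _) hr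
  have e3 : t * (r.den : ℤ) = r.num * U := by
    have hUQ : (U : ℚ) ≠ 0 := by exact_mod_cast hU0
    have hdQ : (r.den : ℚ) ≠ 0 := by exact_mod_cast r.den_pos.ne'
    have h3 : (r.num : ℚ) / r.den = (t : ℚ) / U := by rw [Rat.num_div_den]
    rw [div_eq_div_iff hdQ hUQ] at h3
    exact_mod_cast h3.symm
  have hUN : U.natAbs ≤ N := by
    have h3 : U ∣ (r.den : ℤ) := htU'.symm.dvd_of_dvd_mul_left ⟨r.num, by rw [e3]; ring⟩
    have h4 := Nat.le_of_dvd (by rw [Int.natAbs_natCast]; exact r.den_pos)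
      (Int.natAbs_dvd_natAbs.2 h3)
    rw [Int.natAbs_natCast] at h4
    omega
  have htN : t.natAbs ≤ N := by
    by_cases ht : t = 0
    · rw [ht]; simp
    · have h3 : t ∣ r.num := htU'.dvd_of_dvd_mul_right ⟨(r.den : ℤ), by rw [e3]⟩
      have h5 : r.num ≠ 0 := by
        intro h0
        rw [h0, zero_mul] at e3
        rcases mul_eq_zero.1 e3 with h6 | h6
        · exact ht h6
        · exact r.den_pos.ne' (by exact_mod_cast h6)
      have h4 := Nat.le_of_dvd (Int.natAbs_pos.2 h5) (Int.natAbs_dvd_natAbs.2 h3)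
      omega
  -- the bounds
  have hVN : v ^ l ≤ 2 * N ^ d := by
    have h3 : (-2 * V).natAbs = 2 * v ^ l := by
      rw [Int.natAbs_mul, hV, Int.natAbs_natCast]; norm_num
    have h4 : (t ^ d - U ^ d).natAbs ≤ N ^ d + N ^ d := by
      refine (Int.natAbs_sub_le _ _).trans ?_
      rw [Int.natAbs_pow, Int.natAbs_pow]
      exact add_le_add (Nat.pow_le_pow_left htN d) (Nat.pow_le_pow_left hUN d)
    have h5 : 2 * v ^ l ≤ 2 * (N ^ d + N ^ d) := by
      rw [← h3, ← e2, Int.natAbs_mul]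
      exact Nat.mul_le_mul hkabs h4
    omega
  have hAg : A.natAbs * g.natAbs ^ (d - 1) ≤ 2 * N := by
    have h3 : (A * g ^ (d - 1)).natAbs = (U * k).natAbs := by rw [hk]
    rw [Int.natAbs_mul, Int.natAbs_mul, Int.natAbs_pow] at h3
    rw [h3, Nat.mul_comm]
    exact Nat.mul_le_mul hkabs hUN
  have hA1 : 1 ≤ A.natAbs := Int.natAbs_pos.2 hA
  have hg1 : 1 ≤ g.natAbs := Int.natAbs_pos.2 hg0
  have hAN : A.natAbs ≤ 2 * N :=
    (Nat.le_mul_of_pos_right _ (Nat.pow_pos hg1)).trans hAg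
  have hgN : g.natAbs ≤ 2 * N := by
    refine le_trans ?_ hAg
    calc g.natAbs = g.natAbs ^ 1 := (pow_one _).symm
      _ ≤ g.natAbs ^ (d - 1) := Nat.pow_le_pow_right hg1 (by omega)
      _ ≤ A.natAbs * g.natAbs ^ (d - 1) := Nat.le_mul_of_pos_left _ hA1
  have hzN : z.natAbs ≤ 2 * N * N := by
    rw [hzU, Int.natAbs_mul, Nat.mul_comm]
    exact Nat.mul_le_mul hgN hUN
  have hbN : b.natAbs ≤ 2 * N ^ d * (2 * N * N) + 2 * N * (2 * N * N) ^ d := by
    have h3 : b = V * z - A * z ^ d := by linear_combination -h1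
    rw [h3]
    refine (Int.natAbs_sub_le _ _).trans ?_
    rw [Int.natAbs_mul, Int.natAbs_mul, Int.natAbs_pow, hV, Int.natAbs_natCast]
    exact add_le_add (Nat.mul_le_mul hVN hzN)
      (Nat.mul_le_mul hAN (Nat.pow_le_pow_left hzN d))
  omega



theorem main_sys {l d : ℕ} [NeZero l] (hde : Even d) (hd : 4 ≤ d) (hP : PERStm l d) (hF : FIN l d) :
    ∃ B : ℕ, ∀ (A b : ℤ) (v : ℕ) (O : Finset ℤ) (φ : ℤ → ℤ), Sys d A b (v ^ l) O φ → A ≠ 0 →
      0 < v → (∀ u ∈ O, ∃ m n : ℕ, m < n ∧ φ^[m] u = φ^[n] u) → O.card ≤ B := by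
  classical
  obtain ⟨BP, hBP⟩ := hP
  obtain ⟨BT, hBT⟩ := tailG hF hde hd
  set F := (Set.Finite.toFinset hF) with hFdef
  obtain ⟨C, hC, hcore⟩ := core_bound hd hde
  set B1 := ⌈C * (1 * Real.log (1 + 1))⌉₊ with hB1
  have hFmem : ∀ X U : ℤ, FP l d X U → (X : ℚ) / (U : ℚ) ∈ F := by
    intro X U hXU
    rw [hFdef, Set.Finite.mem_toFinset]
    exact ⟨X, U, hXU, rfl⟩
  refine ⟨(2 + F.card) * BP + B1 + (2 * BT + 1) + 2, ?_⟩
  intro A b v O φ h hA hv hev
  rcases Nat.lt_or_ge v 2 with hv2 | hv2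
  · -- integral
    have hv1 : v = 1 := by omega
    subst hv1
    have h1 := hcore A b (1 ^ l) O φ h hA (by norm_num) 1 le_rfl (by
      rw [one_pow]
      have e1 : LL 1 (sp d 1) = 0 := by simp [LL, sp]
      rw [e1, one_mul]
      have := LL_nonneg 1 (ns d 1)
      unfold Sys.Gam
      have h2 : 0 ≤ Real.log (largestPrimePower 1 : ℝ) := Real.log_natCast_nonneg _
      have h4 : (0 : ℝ) ≤ max 0 (Real.log (Sys.XX d A b 1)) := le_max_left _ _
      have h5 : 0 ≤ Real.log |(A : ℝ)| := Real.log_nonneg (by exact_mod_cast Int.one_le_abs hA)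
      positivity)
    have h2 : O.card ≤ B1 := Nat.cast_le.1 (h1.trans (Nat.le_ceil _))
    omega
  -- the case `A = 1`
  have hone : ∀ (b : ℤ) (O : Finset ℤ) (φ : ℤ → ℤ), Sys d 1 b (v ^ l) O φ →
      (∀ u ∈ O, ∃ m n : ℕ, m < n ∧ φ^[m] u = φ^[n] u) → 2 ≤ (perSet φ O).card →
      O.card ≤ (2 + F.card) * BP := by
    intro b O φ h hev hP2
    exact (card_le_two h hde hd hv2 hev hFmem hP2).trans
      (Nat.mul_le_mul_left _ (hBP v b O φ h hv2))
  by_cases hP1 : (perSet φ O).card ≤ 1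
  · rcases tail_one h hA hde (by omega) hev hP1 with ⟨z, x, hz, hx, hfz, hfx⟩ | h1
    · have hz0 : z ≠ 0 := by
        rintro rfl
        obtain ⟨p, hp, hpv⟩ := Nat.exists_prime_and_dvd (show v ≠ 1 by omega)
        exact h.not_dvd (by omega) hp (dvd_pow hpv (NeZero.ne l)) hz (dvd_zero _)
      have h1 := hBT A b z x v hA hv h.copA h.copB hz0
        (by have := h.eqn z hz; rwa [hfz] at this)
        (by have := h.eqn x hx; rwa [hfx] at this)
      have h6 : O ⊆ Icc (-(((v ^ l : ℕ) : ℤ) + |b|)) (((v ^ l : ℕ) : ℤ) + |b|) := by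
        intro u hu
        rw [mem_Icc]
        exact _root_.abs_le.1 (h.abs_le hd hde hA (by positivity) hu)
      have h7 := card_le_card h6
      rw [Int.card_Icc] at h7
      have h10 : |b| = (b.natAbs : ℤ) := (Int.natCast_natAbs b).symm
      rw [h10] at h7
      generalize v ^ l = V3 at *
      have h12 : O.card ≤ 2 * BT + 1 := by omega
      omega
    · omega
  · obtain ⟨y1, hy1, y2, hy2, hne⟩ := one_lt_card.1 (show 1 < (perSet φ O).card by omega)
    obtain ⟨hy1O, py1⟩ := mem_perSet.1 hy1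
    obtain ⟨hy2O, py2⟩ := mem_perSet.1 hy2
    rcases unit_of_per h hy1O hy2O py1 py2 hne with hA1 | hA1
    · subst hA1
      have := hone b O φ h hev (by omega)
      omega
    · subst hA1
      have hs := neg_sys h hde
      rw [neg_neg] at hs
      have hcard : (O.image fun u : ℤ => -u).card = O.card :=
        card_image_of_injective _ neg_injective
      have hPn : (perSet φ O).image (fun u : ℤ => -u) ⊆
          perSet (fun u => -φ (-u)) (O.image fun u => -u) := by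
        intro u hu
        obtain ⟨w, hw, rfl⟩ := mem_image.1 hu
        obtain ⟨hwO, n, hn, hnw⟩ := mem_perSet.1 hw
        rw [mem_perSet]
        refine ⟨mem_image_of_mem _ hwO, n, hn, ?_⟩
        rw [neg_iter, hnw]
      have h2 := card_le_card hPn
      rw [card_image_of_injective _ neg_injective] at h2
      have := hone (-b) (O.image fun u => -u) (fun u => -φ (-u)) hs (by
        intro u hu
        obtain ⟨w, hw, rfl⟩ := mem_image.1 hu
        obtain ⟨m, n, hmn, he⟩ := hev w hw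
        exact ⟨m, n, hmn, by rw [neg_iter, neg_iter, he]⟩) (by omega)
      rw [hcard] at this
      omega

/-- rational preperiodic points of `x ^ d + c`, `l ∣ d - 1` -/
theorem main_c {l d : ℕ} [NeZero l] (hde : Even d) (hd : 4 ≤ d) (h3 : l ∣ d - 1)
    (hP : PERStm l d) (hF : FIN l d) :
    ∃ B : ℕ, ∀ (c : ℚ) (T : Finset ℚ),
      (∀ x ∈ T, IsPreperiodic (fun x : ℚ => x ^ d + c) x) → T.card ≤ B := by
  classical
  obtain ⟨B, hB⟩ := main_sys hde hd hP hF
  refine ⟨B, ?_⟩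
  intro c T hT
  rcases T.eq_empty_or_nonempty with he | he
  · rw [he, card_empty]; omega
  obtain ⟨v, b, O, φ, hv, hden, hnum, h, hcard, hev⟩ := exists_sys_c (by omega) T he hT
  obtain ⟨k, hk⟩ := h3
  have hV : v ^ (d - 1) = (v ^ k) ^ l := by rw [← pow_mul, hk, Nat.mul_comm]
  rw [hV] at h
  exact hcard.trans (hB 1 b (v ^ k) O φ h one_ne_zero (by positivity) hev)



theorem dynStm : DYNStm := by
  intro l d hl hde hd hld hF hF'
  haveI : NeZero l := ⟨by omega⟩
  exact main_c hde hd hld (per_of_fin hd hF') hF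

end Pool.Agent.W2helper9.BT
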