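import Pool.Agent.W2helper9.BT.Dyn

/-!
# Only finitely many `x ^ d + c` have two rational periodic points
-/

set_option autoImplicit false

namespace Pool.Agent.W2helper9.BT

open Finset Pool.Agent.T6.H62.UB Pool.Agent.T6.H62.PP Pool.Agent.T6.H62.PP.G
open Pool.Agent.W2helper83.BT

/-- Periodic pairs satisfy `FP'`, for all `v`. -/
theorem FP'_of_per' {l d v : ℕ} [NeZero l] {b : ℤ} {O : Finset ℤ} {φ : ℤ → ℤ}
    (h : Sys d 1 b (v ^ l) O φ) (hd : 2 ≤ d) (hv0 : 0 < v)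
    {u w : ℤ} (hu : u ∈ O) (hw : w ∈ O) (pu : Per φ u) (pw : Per φ w) (hne : u ≠ w)
    (hw0 : w ≠ 0) : FP' l d u w := by
  have hn := per_NM pu pw hne
  have hpow := pow_ne_of_NM h hv0 hu hw hn
  refine ⟨hw0, hpow, ?_⟩
  intro q hq hqd
  by_cases hqv : q ∣ v
  · refine ⟨fun h1 => not_dvd_of_mem h hd hq hqv hu h1.1, ?_⟩
    have h1 := val_pow_sub_dvd h hd hv0 hq hqv hqd hu hw hn
    have h2 := val_sub_dvd h hd hv0 hq hqv hqd _ hu hw hn rfl
    rw [val_mul hq hpow] at h1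
    exact (Nat.dvd_add_right h2).1 h1
  · have h1 := not_dvd_psi_of_per h hv0 hu hw pu pw hne hq hqv
    refine ⟨?_, by rw [padicValInt.eq_zero_of_not_dvd h1]; exact dvd_zero _⟩
    rintro ⟨h2, h4⟩
    apply h1
    unfold Psi
    apply dvd_sum
    intro i hi
    rw [mem_range] at hi
    rcases Nat.eq_zero_or_pos i with h5 | h5
    · subst h5
      exact Dvd.dvd.mul_left (dvd_pow h4 (by omega)) _
    · exact Dvd.dvd.mul_right (dvd_pow h2 (by omega)) _

/-- the ratio of two periodic points -/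
theorem per_ratio {l d : ℕ} [NeZero l] (hd : 4 ≤ d) (hld : l ∣ d - 1) {c x y : ℚ}
    (hx : ∃ n : ℕ, 0 < n ∧ (fun x : ℚ => x ^ d + c)^[n] x = x)
    (hy : ∃ n : ℕ, 0 < n ∧ (fun x : ℚ => x ^ d + c)^[n] y = y) (hne : x ≠ y) (hy0 : y ≠ 0) :
    ∃ X U : ℤ, FP' l d X U ∧ x / y = (X : ℚ) / (U : ℚ) := by
  classical
  have hpx : IsPreperiodic (fun x : ℚ => x ^ d + c) x := by
    obtain ⟨n, hn, h⟩ := hx
    exact ⟨0, n, hn, h.symm⟩
  have hpy : IsPreperiodic (fun x : ℚ => x ^ d + c) y := by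
    obtain ⟨n, hn, h⟩ := hy
    exact ⟨0, n, hn, h.symm⟩
  set v := x.den with hv
  have hv0 : 0 < v := x.den_pos
  have hcd : c.den = v ^ d := den_eq (by omega) hpx
  have hvQ : (v : ℚ) ≠ 0 := by exact_mod_cast hv0.ne'
  have hcQ : (c.num : ℚ) = c * (v : ℚ) ^ d := by
    have h1 : (c.num : ℚ) / c.den = c := Rat.num_div_den c
    rw [hcd] at h1
    push_cast at h1
    rw [div_eq_iff (pow_ne_zero _ hvQ)] at h1
    exact h1
  have hcop : IsCoprime c.num ((v ^ (d - 1) : ℕ) : ℤ) := by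
    have h1 : IsCoprime c.num (c.den : ℤ) := by
      rw [Int.isCoprime_iff_gcd_eq_one]
      exact c.reduced
    rw [hcd] at h1
    push_cast at h1 ⊢
    exact (IsCoprime.pow_right ((IsCoprime.pow_right_iff (by omega)).1 h1))
  have hconj1 : ∀ x : ℚ, (((1 : ℤ) : ℚ) * (v * x) ^ d + (c.num : ℚ)) /
      ((v ^ (d - 1) : ℕ) : ℚ) = v * (x ^ d + c) := by
    intro x
    push_cast
    rw [hcQ, div_eq_iff (pow_ne_zero _ hvQ)]
    obtain ⟨e, rfl⟩ : ∃ e, d = e + 1 := ⟨d - 1, by omega⟩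
    simp only [Nat.add_sub_cancel]
    ring
  have hconj : ∀ (k : ℕ) (x : ℚ), (fun x : ℚ => (((1 : ℤ) : ℚ) * x ^ d + (c.num : ℚ)) /
      ((v ^ (d - 1) : ℕ) : ℚ))^[k] (v * x) = v * (fun x : ℚ => x ^ d + c)^[k] x := by
    intro k
    induction k with
    | zero => intro x; rfl
    | succ k ih =>
      intro x
      rw [Function.iterate_succ_apply, Function.iterate_succ_apply, ← ih]
      congr 1
      exact hconj1 x
  obtain ⟨O, φ, h1, h2, -, -⟩ := exists_sys (d := d) (by omega) (A := 1) (B := c.num)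
    (V := v ^ (d - 1))
    one_ne_zero (by positivity) isCoprime_one_left hcop (by
      intro p hp hdvd
      have h5 : (p : ℤ) ∣ 1 := (dvd_pow_self _ (by omega)).trans hdvd
      have := Int.le_of_dvd one_pos h5
      have := hp.one_lt
      omega) (({x, y} : Finset ℚ).image fun x => v * x) (by
      intro z hz
      obtain ⟨x', hx', rfl⟩ := mem_image.1 hz
      have h3 : IsPreperiodic (fun x : ℚ => x ^ d + c) x' := by
        rw [mem_insert, mem_singleton] at hx'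
        rcases hx' with rfl | rfl
        · exact hpx
        · exact hpy
      obtain ⟨m, n, hmn, heq⟩ := h3
      exact ⟨m, n, hmn, by rw [hconj, hconj, heq]⟩)
  obtain ⟨u, hu, hux⟩ := h2 (v * x) (mem_image_of_mem _ (by simp))
  obtain ⟨w, hw, hwy⟩ := h2 (v * y) (mem_image_of_mem _ (by simp))
  have hVQ : ((v ^ (d - 1) : ℕ) : ℚ) ≠ 0 := by
    push_cast; exact pow_ne_zero _ hvQ
  have hit : ∀ (x : ℚ) (u : ℤ), u ∈ O → (u : ℚ) = v * x → ∀ k : ℕ,
      φ^[k] u ∈ O ∧ ((φ^[k] u : ℤ) : ℚ) = v * (fun x : ℚ => x ^ d + c)^[k] x := by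
    intro x u hu hux k
    induction k with
    | zero => exact ⟨hu, hux⟩
    | succ k ih =>
      rw [Function.iterate_succ_apply', Function.iterate_succ_apply']
      refine ⟨h1.maps _ ih.1, ?_⟩
      have h3 := h1.eqn _ ih.1
      have h4 : ((v ^ (d - 1) : ℕ) : ℚ) * ((φ (φ^[k] u) : ℤ) : ℚ)
          = ((1 : ℤ) : ℚ) * ((φ^[k] u : ℤ) : ℚ) ^ d + (c.num : ℚ) := by exact_mod_cast h3
      rw [ih.2] at h4
      have h5 := hconj1 ((fun x : ℚ => x ^ d + c)^[k] x)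
      rw [← h4, mul_div_cancel_left₀ _ hVQ] at h5
      exact h5
  have hperU : ∀ (x : ℚ) (u : ℤ), u ∈ O → (u : ℚ) = v * x →
      (∃ n : ℕ, 0 < n ∧ (fun x : ℚ => x ^ d + c)^[n] x = x) → Per φ u := by
    intro x u hu hux hx
    obtain ⟨n, hn, h3⟩ := hx
    refine ⟨n, hn, ?_⟩
    have h4 := (hit x u hu hux n).2
    rw [h3, ← hux] at h4
    exact_mod_cast h4
  obtain ⟨k, hk⟩ := hld
  have hV : v ^ (d - 1) = (v ^ k) ^ l := by rw [← pow_mul, hk, Nat.mul_comm]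
  rw [hV] at h1
  have huw : u ≠ w := by
    rintro rfl
    rw [hux] at hwy
    exact hne (mul_left_cancel₀ hvQ hwy)
  have hw0 : w ≠ 0 := by
    rintro rfl
    rw [Int.cast_zero] at hwy
    rcases mul_eq_zero.1 hwy.symm with h3 | h3
    · exact hvQ h3
    · exact hy0 h3
  refine ⟨u, w, FP'_of_per' h1 (by omega) (by positivity) hu hw (hperU x u hu hux hx)
    (hperU y w hw hwy hy) huw hw0, ?_⟩
  rw [hux, hwy, mul_div_mul_left _ _ hvQ]

/-- zero periodic -/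
theorem zero_per {d : ℕ} (hd : 2 ≤ d) {c : ℚ}
    (h0 : ∃ n : ℕ, 0 < n ∧ (fun x : ℚ => x ^ d + c)^[n] 0 = 0) : c = 0 ∨ c = 1 ∨ c = -1 := by
  obtain ⟨n, hn, h⟩ := h0
  have hden : c.den = 1 := by
    have h1 := den_eq (c := c) (x := 0) hd ⟨0, n, hn, h.symm⟩
    rw [h1]; simp
  have hz : ((c.num : ℤ) : ℚ) = c := Rat.coe_int_num_of_den_eq_one hden
  set z := c.num with hzdef
  obtain ⟨e, rfl⟩ : ∃ e, d = e + 1 := ⟨d - 1, by omega⟩
  have hk : ∀ k : ℕ, ∃ t : ℤ, (fun x : ℚ => x ^ (e + 1) + c)^[k] 0 = ((z * t : ℤ) : ℚ) := by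
    intro k
    induction k with
    | zero => exact ⟨0, by simp⟩
    | succ k ih =>
      obtain ⟨t, ht⟩ := ih
      refine ⟨z ^ e * t ^ (e + 1) + 1, ?_⟩
      rw [Function.iterate_succ_apply', ht]
      push_cast
      rw [hz]
      ring
  obtain ⟨m, rfl⟩ : ∃ m, n = m + 1 := ⟨n - 1, by omega⟩
  obtain ⟨t, ht⟩ := hk m
  rw [Function.iterate_succ_apply', ht] at h
  have h1 : (z * t) ^ (e + 1) + z = 0 := by
    rw [← hz] at h
    exact_mod_cast h
  by_cases hz0 : z = 0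
  · left
    rw [← hz, hz0]; simp
  · right
    have h2 : z * (z ^ e * t ^ (e + 1) + 1) = 0 := by linear_combination h1
    have h3 : z ^ e * t ^ (e + 1) + 1 = 0 := by
      rcases mul_eq_zero.1 h2 with h3 | h3
      · exact absurd h3 hz0
      · exact h3
    have h4 : z ∣ 1 := by
      refine ⟨-(z ^ (e - 1) * t ^ (e + 1)), ?_⟩
      obtain ⟨g, rfl⟩ : ∃ g, e = g + 1 := ⟨e - 1, by omega⟩
      simp only [Nat.add_sub_cancel]
      linear_combination h3
    have h5 := Int.isUnit_iff.1 (isUnit_of_dvd_one h4)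
    rcases h5 with h5 | h5
    · left; rw [← hz, h5]; simp
    · right; rw [← hz, h5]; simp

theorem excStm : EXCStm := by
  classical
  intro l d hl hde hd hld hF hF'
  have : NeZero l := ⟨by omega⟩
  have hodd : Odd (d - 1) := by
    obtain ⟨e, he⟩ := hde
    exact ⟨e - 1, by omega⟩
  set R : Set ℚ := {t : ℚ | ∃ X U : ℤ, FP' l d X U ∧ t = (X : ℚ) / (U : ℚ)} with hR
  have hRfin : R.Finite := hF'
  let K : ℚ → ℚ → ℚ := fun r s => (r ^ d - 1) / (s - 1)
  let g : ℚ × ℚ × ℚ → ℚ := fun p =>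
    (K p.1 p.2.1 - 1) ^ d / ((K p.2.1 p.2.2 - 1) * K p.1 p.2.1 ^ d)
  have hG : (g '' (R ×ˢ (R ×ˢ R))).Finite := (hRfin.prod (hRfin.prod hRfin)).image g
  have hpre : ((fun c : ℚ => c ^ (d - 1)) ⁻¹' (g '' (R ×ˢ (R ×ˢ R)))).Finite :=
    hG.preimage (hodd.strictMono_pow.injective.injOn)
  refine ((({0, 1, -1} : Set ℚ).toFinite).union hpre).subset ?_
  rintro c ⟨x, y, hne, hx, hy⟩
  by_cases hc : c = 0 ∨ c = 1 ∨ c = -1
  · left
    simpa using hc
  right
  have hc0 : c ≠ 0 := fun h => hc (Or.inl h)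
  set f : ℚ → ℚ := fun x : ℚ => x ^ d + c with hf
  -- no periodic point is zero
  have hnz : ∀ z : ℚ, (∃ n : ℕ, 0 < n ∧ f^[n] z = z) → z ≠ 0 := by
    rintro z hz rfl
    exact hc (zero_per (by omega) hz)
  have hmap : ∀ z : ℚ, (∃ n : ℕ, 0 < n ∧ f^[n] z = z) → ∃ n : ℕ, 0 < n ∧ f^[n] (f z) = f z := by
    rintro z ⟨n, hn, h⟩
    exact ⟨n, hn, by rw [← Function.iterate_succ_apply, Function.iterate_succ_apply', h]⟩
  have hinj : ∀ z w : ℚ, (∃ n : ℕ, 0 < n ∧ f^[n] z = z) → (∃ n : ℕ, 0 < n ∧ f^[n] w = w) →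
      z ≠ w → f z ≠ f w := by
    rintro z w ⟨m, hm, h1⟩ ⟨n, hn, h2⟩ hzw h3
    apply hzw
    have h4 : f^[m * n] z = z := (Function.IsPeriodicPt.mul_const (m := m) h1 n)
    have h5 : f^[m * n] w = w := (Function.IsPeriodicPt.const_mul (m := n) h2 m)
    obtain ⟨j, hj⟩ : ∃ j, m * n = j + 1 := ⟨m * n - 1, by have := Nat.mul_pos hm hn; omega⟩
    rw [hj, Function.iterate_succ_apply] at h4 h5
    rw [← h4, ← h5, h3]
  have hratio : ∀ z w : ℚ, (∃ n : ℕ, 0 < n ∧ f^[n] z = z) → (∃ n : ℕ, 0 < n ∧ f^[n] w = w) →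
      z ≠ w → z / w ∈ R := by
    intro z w hz hw hzw
    obtain ⟨X, U, h1, h2⟩ := per_ratio hd hld hz hw hzw (hnz w hw)
    exact ⟨X, U, h1, h2⟩
  have hx1 := hmap x hx
  have hy1 := hmap y hy
  have hx2 := hmap _ hx1
  have hy2 := hmap _ hy1
  have hne1 := hinj x y hx hy hne
  have hne2 := hinj _ _ hx1 hy1 hne1
  have y0 := hnz y hy
  have y1 := hnz _ hy1
  have y2 := hnz _ hy2
  -- one step
  have step : ∀ z w : ℚ, w ≠ 0 → f w ≠ 0 → f z ≠ f w → f w = K (z / w) (f z / f w) * w ^ d := by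
    intro z w hw hfw hne
    have h1 : f z / f w - 1 ≠ 0 := by
      rw [sub_ne_zero]
      intro h
      rw [div_eq_one_iff_eq hfw] at h
      exact hne h
    have h2 : f z - f w = z ^ d - w ^ d := by simp only [hf]; ring
    have h3 : (f z / f w - 1) * f w = z ^ d - w ^ d := by
      rw [sub_mul, div_mul_cancel₀ _ hfw, one_mul, h2]
    have h4 : ((z / w) ^ d - 1) * w ^ d = z ^ d - w ^ d := by
      rw [sub_mul, div_pow, div_mul_cancel₀ _ (pow_ne_zero _ hw), one_mul]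
    show f w = ((z / w) ^ d - 1) / (f z / f w - 1) * w ^ d
    rw [div_mul_eq_mul_div, h4, ← h3, mul_div_cancel_left₀ _ h1]
  have s1 := step x y y0 y1 hne1
  have s2 := step (f x) (f y) y1 y2 hne2
  set k := K (x / y) (f x / f y) with hk
  set k' := K (f x / f y) (f (f x) / f (f y)) with hk'
  have e1 : c = (k - 1) * y ^ d := by
    have : f y = y ^ d + c := rfl
    rw [sub_mul, ← s1, this]; ring
  have e2 : c = (k' - 1) * (f y) ^ d := by
    have : f (f y) = (f y) ^ d + c := rfl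
    rw [sub_mul, ← s2, this]; ring
  have hk0 : k ≠ 0 := by
    intro h
    rw [h, zero_mul] at s1
    exact y1 s1
  have hk1 : k' - 1 ≠ 0 := by
    intro h
    rw [h, zero_mul] at e2
    exact hc0 e2
  refine ⟨(x / y, f x / f y, f (f x) / f (f y)), ⟨hratio x y hx hy hne,
    hratio _ _ hx1 hy1 hne1, hratio _ _ hx2 hy2 hne2⟩, ?_⟩
  show (k - 1) ^ d / ((k' - 1) * k ^ d) = c ^ (d - 1)
  rw [div_eq_iff (mul_ne_zero hk1 (pow_ne_zero _ hk0))]
  -- `c * (k - 1) ^ d = c ^ d * ((k' - 1) * k ^ d)`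
  apply mul_left_cancel₀ hc0
  have e3 : c * c ^ (d - 1) = c ^ d := by
    obtain ⟨e, rfl⟩ : ∃ e, d = e + 1 := ⟨d - 1, by omega⟩
    simp only [Nat.add_sub_cancel]
    ring
  rw [← mul_assoc, e3]
  calc c * (k - 1) ^ d = ((k' - 1) * (k * y ^ d) ^ d) * (k - 1) ^ d := by rw [← s1, ← e2]
    _ = ((k - 1) * y ^ d) ^ d * ((k' - 1) * k ^ d) := by rw [mul_pow, mul_pow]; ring
    _ = c ^ d * ((k' - 1) * k ^ d) := by rw [← e1]

end Pool.Agent.W2helper9.BT
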